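import Mathlib
import Pool.Agent.Run7.h20.MK.Tup
import Pool.Agent.Run7.h20.MK.Gen
import Pool.Agent.Run7.h27.MK.Gen
import Pool.Agent.Run7.h794.MK.All

/-!
# Prime triples (and tuples) whose differences belong to sets of nearly minimal additive energy in short intervals

Let `S 1, ..., S k` be arbitrary finite sets of natural numbers, each of them inside of an interval of a length
`H i ≥ N ^ (1/3) log ^ C N` contained in `[0, B N]`, whose additive energies of some order `r` are nearly minimal:
`H i * energy r (S i) ≤ log ^ A N * |S i| ^ (2 r)`. (For instance: all sets with at least `H i / log ^ A N` members; Sidon sets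
with `√(H i) / log ^ A N` members; the values of a fixed polynomial.) For almost all vectors of members the formula of Hardy and
Littlewood holds, uniformly, for ALL the constants near these members, all small slopes and many ranges.
-/

set_option autoImplicit false

namespace Pool.Agent.Results.MP_1039f5_nt.EnergyFamiliesShortScale

open Finset Filter

/-- The additive energy of order `r` of `S`: the number of pairs `v, w` of vectors of `r` members of `S` with
`v_1 + ... + v_r = w_1 + ... + w_r`. -/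
def energy (r : ℕ) (S : Finset ℕ) : ℕ :=
  (((Fintype.piFinset fun _ : Fin r => S) ×ˢ (Fintype.piFinset fun _ : Fin r => S)).filter
    (fun q => ∑ i, q.1 i = ∑ i, q.2 i)).card

/-- For every prime `p` there is a `t` such that `p` divides neither `t` nor any `d i * t + b i`. -/
def Admissible {k : ℕ} (d b : Fin k → ℕ) : Prop := ∀ p : ℕ, p.Prime → ∃ t : ℕ, ¬ p ∣ t ∧ ∀ i, ¬ p ∣ d i * t + b i

/-- The number of residues `t` modulo `p` for which `p` divides `t` or some `d i * t + b i`. -/
def nu {k : ℕ} (d b : Fin k → ℕ) (p : ℕ) : ℕ := ((range p).filter fun t => p ∣ t * ∏ i, (d i * t + b i)).card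

/-- The partial products of the singular series of the forms `t` and `d i * t + b i`. -/
noncomputable def sing {k : ℕ} (d b : Fin k → ℕ) (z : ℕ) : ℝ :=
  ∏ p ∈ (Icc 1 z).filter Nat.Prime, (1 - (nu d b p : ℝ) / p) / (1 - 1 / (p : ℝ)) ^ (k + 1)

/-- The number of the primes `q ≤ x` for which all the numbers `d i * q + b i` are primes. -/
def count {k : ℕ} (d b : Fin k → ℕ) (x : ℕ) : ℕ := ((Icc 1 x).filter fun q => q.Prime ∧ ∀ i, (d i * q + b i).Prime).card

/-- The formula of Hardy and Littlewood for the primes `q ≤ x` with all `d i * q + b i` prime: the singular series converges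
to a positive number `S`, the weighted number is `S x` with an error of at most `x / log ^ U N`, and the number is
`S x / log ^ (k + 1) N` with a relative error of at most `ε`. -/
def Formula {k : ℕ} (ε : ℝ) (U N x : ℕ) (d b : Fin k → ℕ) : Prop :=
  ∃ S : ℝ, 0 < S ∧ Tendsto (sing d b) atTop (nhds S) ∧
    |∑ n ∈ Icc 1 x, ArithmeticFunction.vonMangoldt n * ∏ i, ArithmeticFunction.vonMangoldt (d i * n + b i) - S * x| ≤
      x / Real.log N ^ U ∧
    |(count d b x : ℝ) - S * (x / Real.log N ^ (k + 1))| ≤ ε * (S * (x / Real.log N ^ (k + 1)))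

open Classical in
/-- For all `k, r ≥ 1` and all `A`, `B`, `D`, `U`, `W`, `ε > 0` there are `C` and `N₀` such that for all `N ≥ N₀` the following
holds. Let `S 1, ..., S k` be nonempty finite sets of natural numbers, `S i` inside of an interval `[a, a + H]` with
`H ≥ N ^ (1/3) log ^ C N` and `a + H ≤ B N` and with an additive energy of order `r` of at most
`log ^ A N * |S i| ^ (2 r) / H`. Then all but at most `|S 1| ... |S k| / log ^ U N` of the vectors `s` (with `s i ∈ S i`)
have the following property: for ALL vectors `b` with `s i ≤ b i ≤ s i + log ^ W N`, all `j ≤ log ^ D N` and all slopes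
`1 ≤ d i ≤ j` for which the forms are admissible, the formula of Hardy and Littlewood holds for the primes `q ≤ N / j` for which
all `d i * q + b i` are primes. -/
theorem result (k r A B D U W : ℕ) (hk : 1 ≤ k) (hr : 1 ≤ r) (ε : ℝ) (hε : 0 < ε) :
    ∃ C N₀ : ℕ, ∀ N : ℕ, N₀ ≤ N → ∀ S : Fin k → Finset ℕ, (∀ i, (S i).Nonempty) →
    (∀ i, ∃ a H : ℕ, (N : ℝ) ^ (1 / 3 : ℝ) * Real.log N ^ C ≤ H ∧ a + H ≤ B * N ∧ (∀ s ∈ S i, a ≤ s ∧ s ≤ a + H) ∧
      (H : ℝ) * energy r (S i) ≤ Real.log N ^ A * ((S i).card : ℝ) ^ (2 * r)) →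
    (((Fintype.piFinset S).filter (fun s : Fin k → ℕ => ¬ ∀ b : Fin k → ℕ,
      (∀ i, s i ≤ b i ∧ (b i : ℝ) ≤ s i + Real.log N ^ W) → ∀ (j : ℕ) (d : Fin k → ℕ), (j : ℝ) ≤ Real.log N ^ D →
      (∀ i, 1 ≤ d i ∧ d i ≤ j) → Admissible d b → Formula ε U N (N / j) d b)).card : ℝ) ≤
      (∏ i, ((S i).card : ℝ)) / Real.log N ^ U := by
  obtain ⟨R, hR⟩ := Pool.Agent.Run7.h27.MK.gen_all k hk (fun _ => 1) (fun _ => le_rfl) B D W U ε hε
  obtain ⟨C, hC⟩ := Pool.Agent.Run7.h20.MK.ene_law Pool.Agent.Run7.h794.MK.law_all r A 1 (B + 1) B R hr le_rfl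
  obtain ⟨N₀, h0⟩ := hR (fun _ => Pool.Agent.Run7.h20.MK.Ene r A C B) (fun _ => hC)
  refine ⟨C, N₀, fun N hN S hS hen => ?_⟩
  have key := h0 N hN (fun _ => ℕ) S (fun _ s => s) S (fun i _ => 1 / ((S i).card : ℝ)) (fun i => by
    obtain ⟨a, H, e1, e2, e3, e4⟩ := hen i
    exact Pool.Agent.Run7.h20.MK.Ene_unif r A C B N (S i) (hS i) a H e1 e2 e3 e4)
    (fun i => Pool.Agent.Run7.h20.MK.Rep_unif (S i) (hS i)) (fun _ => 0) (fun _ => Nat.zero_le _)
  refine le_trans ?_ key
  have hsub : (Fintype.piFinset S).filter (fun s : Fin k → ℕ => ¬ ∀ b : Fin k → ℕ,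
      (∀ i, s i ≤ b i ∧ (b i : ℝ) ≤ s i + Real.log N ^ W) → ∀ (j : ℕ) (d : Fin k → ℕ), (j : ℝ) ≤ Real.log N ^ D →
      (∀ i, 1 ≤ d i ∧ d i ≤ j) → Admissible d b → Formula ε U N (N / j) d b) ⊆
      (Fintype.piFinset S).filter fun n => ¬ ∀ t : Fin k → ℕ, (∀ i, (t i : ℝ) ≤ Real.log N ^ W) →
        Pool.Agent.N699.ST.AllS ε D U N (fun i => 0 + 1 * n i + t i) := by
    intro s hs
    rw [mem_filter] at hs ⊢
    refine ⟨hs.1, fun hcon => hs.2 fun b hb j d hj hd hadm => ?_⟩
    have h1 := hcon (fun i => b i - s i) (fun i => by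
      obtain ⟨e1, e2⟩ := hb i
      rw [Nat.cast_sub e1]
      linarith)
    have e : (fun i => 0 + 1 * s i + (b i - s i)) = b := by
      funext i
      have := (hb i).1
      omega
    rw [e] at h1
    exact h1 j d hj hd hadm
  exact_mod_cast card_le_card hsub

end Pool.Agent.Results.MP_1039f5_nt.EnergyFamiliesShortScale
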