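import Pool.Agent.Run7.h673.SP.WinF

/-!
# Prime triples and tuples with differences from thin sequences of superpolynomial growth, for every shift

The number of the primes `p ≤ N` and the `k`, `k'` for which `p - h - ⌊exp (φ (log k))⌋` and `p - h' - ⌊exp (φ' (log k'))⌋`
are primes is the predicted one, for ALL `h, h' ≤ N / log ^ 2 N`, for instance for `φ y = γ y ^ β` with `1 < β < 3 / 2`; the
`⌊exp (φ (log k))⌋`, `y < k ≤ x`, form a set with `N ^ o(1)` elements in an interval of a length which may be as small as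
`N ^ (1/3 + o(1))`. The same is proved for tuples of any length, for both signs of the differences, for multiples of the
values, and for the `p` in any set of at least `N / log ^ T N` primes.

From Mathlib: `ContDiffAt ℝ ⊤`: infinitely differentiable at a point; `iteratedDeriv m f`: the derivative of order `m`;
`⌊y⌋₊`: the integer part of `y`, and `0` for `y < 0`; `Fintype.piFinset S`: the set of the vectors `k` with `k i ∈ S i`;
`Int.natAbs κ`: the absolute value; `Nat.totient`: Euler's function; `Int.toNat z`: the number `z`, and `0` for `z < 0`.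

Method: the exponential sums over the integer parts of `exp (φ (log k))`, `y < k ≤ x`, are small at all frequencies with a
distance of at least `log ^ A / exp (φ (log y))` from the integers (Vinogradov's method of bilinear exponential sums with
the mean value theorem in the form of a starting file; files `Pool.Agent.Run7.h673.SP`). By project MK of this run (helper794,
helper880, helper337 and others) the von Mangoldt function minus its mean in the classes prime to `κ` has small mean squares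
over short arcs around the fractions `j / κ`. So for almost all `p` the right proportion of the `k` is good for each form.
-/

set_option autoImplicit false

namespace Pool.Agent.Results.MP_1039f5_nt.SuperpolynomialTriples

open Finset

/-- The conditions on `φ` for the growth of `f t = exp (φ (log t))`: for some `δ > 0`, `K` and `L₀` and all `y > L₀` the
function `φ` is infinitely differentiable at `y`, `φ y > 0`, `(1 + δ) φ y ≤ y φ' y`, `φ y ≤ y ^ (3 / 2 - δ)`, and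
`|φ⁽ᵐ⁾ y| ≤ m! φ y (K / y) ^ m` for all `m ≥ 1`. -/
def Rapid (φ : ℝ → ℝ) : Prop :=
  ∃ δ K L₀ : ℝ, 0 < δ ∧ ∀ y > L₀, ContDiffAt ℝ ((⊤ : ℕ∞) : WithTop ℕ∞) φ y ∧ 0 < φ y ∧
    (1 + δ) * φ y ≤ y * deriv φ y ∧ φ y ≤ y ^ (3 / 2 - δ) ∧
    ∀ m : ℕ, 1 ≤ m → |iteratedDeriv m φ y| ≤ m.factorial * φ y * (K / y) ^ m

/-- `(y, x]` is a range of length at least `x / log ^ a N` in which `f t = exp (φ (log t))` has values between
`N ^ (1/3) log ^ C N` and `N / log ^ C N`: `y < x`, `x ≤ log ^ a N (x - y)`, `N ^ (1/3) log ^ C N ≤ f y` and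
`f x log ^ C N ≤ N`. -/
def Range (φ : ℝ → ℝ) (a C N x y : ℕ) : Prop :=
  y < x ∧ (x : ℝ) ≤ Real.log N ^ a * ((x : ℝ) - y) ∧
    (N : ℝ) ^ (1 / 3 : ℝ) * Real.log N ^ C ≤ Real.exp (φ (Real.log y)) ∧ Real.exp (φ (Real.log x)) * Real.log N ^ C ≤ N

/-- The number of the pairs `(p, k)` of an element `p` of `P` and a vector `k` with `y i < k i ≤ x i` for which all the numbers
`p + h i + κ i ⌊exp (φ i (log (k i)))⌋` are (positive) primes. -/
noncomputable def tuples {r : ℕ} (φ : Fin r → ℝ → ℝ) (x y : Fin r → ℕ) (κ h : Fin r → ℤ) (P : Finset ℕ) : ℕ :=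
  ((P ×ˢ Fintype.piFinset fun i => Ioc (y i) (x i)).filter fun w => ∀ i,
    ((w.1 : ℤ) + h i + κ i * ⌊Real.exp (φ i (Real.log (w.2 i)))⌋₊).toNat.Prime).card

/-- The product of the numbers `κ i / φ(κ i) (x i - y i) / log N`. -/
noncomputable def expected {r : ℕ} (N : ℕ) (x y : Fin r → ℕ) (κ : Fin r → ℤ) : ℝ :=
  ∏ i, ((κ i).natAbs / (Nat.totient (κ i).natAbs : ℝ) * (((x i : ℝ) - y i) / Real.log N))

/-- The number of the triples of primes `p ≤ N`, `p - h₁ - ⌊exp (φ₁ (log k₁))⌋`, `p - h₂ - ⌊exp (φ₂ (log k₂))⌋` with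
`y₁ < k₁ ≤ x₁`, `y₂ < k₂ ≤ x₂`, that is, the sum of the numbers `π₃(N, d', d)` over the differences
`d' = h₁ + ⌊exp (φ₁ (log k₁))⌋`, `d = h₂ + ⌊exp (φ₂ (log k₂))⌋`. -/
noncomputable def triples (φ₁ φ₂ : ℝ → ℝ) (N x₁ y₁ x₂ y₂ h₁ h₂ : ℕ) : ℕ :=
  ∑ k₁ ∈ Ioc y₁ x₁, ∑ k₂ ∈ Ioc y₂ x₂, ((Icc 1 N).filter fun p => p.Prime ∧
    (p - (h₁ + ⌊Real.exp (φ₁ (Real.log k₁))⌋₊)).Prime ∧ (p - (h₂ + ⌊Real.exp (φ₂ (Real.log k₂))⌋₊)).Prime).card

lemma tuples_eq {r : ℕ} (φ : Fin r → ℝ → ℝ) (x y : Fin r → ℕ) (κ h : Fin r → ℤ) (P : Finset ℕ) :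
    (tuples φ x y κ h P : ℝ) =
      ∑ n ∈ P, ∏ i, (Pool.Agent.Run7.h673.SP.npr (φ i) (x i) (y i) (κ i) (h i) n : ℝ) := by
  rw [← Pool.Agent.Run7.h673.SP.tuple_sum]
  unfold tuples
  congr 2
  apply filter_congr
  intro w _
  apply forall_congr'
  intro i
  have : (w.1 : ℤ) + (h i + κ i * (Pool.Agent.Run7.h673.SP.val (φ i) (w.2 i) : ℕ)) =
      (w.1 : ℤ) + h i + κ i * ⌊Real.exp (φ i (Real.log (w.2 i)))⌋₊ := by
    unfold Pool.Agent.Run7.h673.SP.val Pool.Agent.Run7.h673.SP.ff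
    ring
  rw [this]

lemma npr_neg (φ : ℝ → ℝ) (x y h p : ℕ) (hp : h < p) :
    (Pool.Agent.Run7.h673.SP.npr φ x y (-1) (-(h : ℤ)) p : ℝ) =
      ∑ k ∈ Ioc y x, (if (p - (h + ⌊Real.exp (φ (Real.log k))⌋₊)).Prime then (1 : ℝ) else 0) := by
  unfold Pool.Agent.Run7.h673.SP.npr
  rw [card_filter]
  push_cast
  refine sum_congr rfl fun k _ => ?_
  have : ((p : ℤ) + (-(h : ℤ) + -1 * (Pool.Agent.Run7.h673.SP.val φ k : ℕ))).toNat =
      p - (h + ⌊Real.exp (φ (Real.log k))⌋₊) := by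
    unfold Pool.Agent.Run7.h673.SP.val Pool.Agent.Run7.h673.SP.ff
    omega
  simp only [this]

lemma triples_eq (φ₁ φ₂ : ℝ → ℝ) (N x₁ y₁ x₂ y₂ h₁ h₂ : ℕ) (P : Finset ℕ)
    (hP : P = (Ioc (max h₁ h₂) N).filter Nat.Prime) :
    (triples φ₁ φ₂ N x₁ y₁ x₂ y₂ h₁ h₂ : ℝ) =
      ∑ p ∈ P, (∑ k ∈ Ioc y₁ x₁, (if (p - (h₁ + ⌊Real.exp (φ₁ (Real.log k))⌋₊)).Prime then (1 : ℝ) else 0)) *
        (∑ k ∈ Ioc y₂ x₂, (if (p - (h₂ + ⌊Real.exp (φ₂ (Real.log k))⌋₊)).Prime then (1 : ℝ) else 0)) := by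
  have e1 : (triples φ₁ φ₂ N x₁ y₁ x₂ y₂ h₁ h₂ : ℝ) = ∑ k₁ ∈ Ioc y₁ x₁, ∑ k₂ ∈ Ioc y₂ x₂, ∑ p ∈ P,
      (if (p - (h₁ + ⌊Real.exp (φ₁ (Real.log k₁))⌋₊)).Prime then (1 : ℝ) else 0) *
        (if (p - (h₂ + ⌊Real.exp (φ₂ (Real.log k₂))⌋₊)).Prime then (1 : ℝ) else 0) := by
    unfold triples
    push_cast
    refine sum_congr rfl fun k₁ _ => sum_congr rfl fun k₂ _ => ?_
    have e2 : ((Icc 1 N).filter fun p => p.Prime ∧
        (p - (h₁ + ⌊Real.exp (φ₁ (Real.log k₁))⌋₊)).Prime ∧ (p - (h₂ + ⌊Real.exp (φ₂ (Real.log k₂))⌋₊)).Prime) =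
        P.filter fun p => (p - (h₁ + ⌊Real.exp (φ₁ (Real.log k₁))⌋₊)).Prime ∧
          (p - (h₂ + ⌊Real.exp (φ₂ (Real.log k₂))⌋₊)).Prime := by
      ext p
      rw [mem_filter, mem_filter, hP, mem_filter, mem_Icc, mem_Ioc, max_lt_iff]
      constructor
      · rintro ⟨⟨a1, a2⟩, a3, a4, a5⟩
        have a6 := a4.pos
        have a7 := a5.pos
        exact ⟨⟨⟨⟨by omega, by omega⟩, a2⟩, a3⟩, a4, a5⟩
      · rintro ⟨⟨⟨_, a2⟩, a3⟩, a4, a5⟩
        exact ⟨⟨a3.one_lt.le, a2⟩, a3, a4, a5⟩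
    rw [e2, card_filter]
    push_cast
    refine sum_congr rfl fun p _ => ?_
    by_cases a1 : (p - (h₁ + ⌊Real.exp (φ₁ (Real.log k₁))⌋₊)).Prime
    · by_cases a2 : (p - (h₂ + ⌊Real.exp (φ₂ (Real.log k₂))⌋₊)).Prime
      · simp [a1, a2]
      · simp [a1, a2]
    · simp [a1]
  rw [e1]
  have e3 : ∀ k₁ ∈ Ioc y₁ x₁, ∑ k₂ ∈ Ioc y₂ x₂, ∑ p ∈ P,
      (if (p - (h₁ + ⌊Real.exp (φ₁ (Real.log k₁))⌋₊)).Prime then (1 : ℝ) else 0) *
        (if (p - (h₂ + ⌊Real.exp (φ₂ (Real.log k₂))⌋₊)).Prime then (1 : ℝ) else 0) =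
      ∑ p ∈ P, ∑ k₂ ∈ Ioc y₂ x₂, (if (p - (h₁ + ⌊Real.exp (φ₁ (Real.log k₁))⌋₊)).Prime then (1 : ℝ) else 0) *
        (if (p - (h₂ + ⌊Real.exp (φ₂ (Real.log k₂))⌋₊)).Prime then (1 : ℝ) else 0) := fun k₁ _ => sum_comm
  rw [sum_congr rfl e3, sum_comm]
  refine sum_congr rfl fun p _ => ?_
  rw [sum_mul_sum]

/-- the primes in an interval -/
lemma few (δ : ℝ) (hδ : 0 < δ) : ∃ N₀ : ℕ, ∀ N : ℕ, N₀ ≤ N → ∀ u : ℕ, (u : ℝ) * Real.log N ^ 2 ≤ N →
    |((((Ioc u N).filter Nat.Prime).card : ℕ) : ℝ) - N / Real.log N| ≤ δ * (N / Real.log N) := by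
  obtain ⟨N₀, h0⟩ := Filter.eventually_atTop.1 ((Pool.Agent.Run7.h931.MK.pnt_unif 0 (δ / 2) (by positivity)).and
    ((Pool.Agent.N384.MQ.ev_log_ge (2 / δ)).and (Pool.Agent.N384.MQ.ev_log_ge 1)))
  refine ⟨N₀, fun N hN u hu => ?_⟩
  obtain ⟨h1, h2, h3⟩ := h0 N hN
  have h4 := h1 N le_rfl (by rw [pow_zero, mul_one])
  obtain ⟨L, hL⟩ : ∃ L, L = Real.log (N : ℝ) := ⟨_, rfl⟩
  rw [← hL] at h2 h3 h4 hu ⊢
  have hL0 : 0 < L := by linarith
  have hN0 : (0 : ℝ) ≤ N := Nat.cast_nonneg _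
  have h5 : ((Ioc u N).filter Nat.Prime).card ≤ ((Icc 1 N).filter Nat.Prime).card := by
    apply card_le_card
    intro p hp
    rw [mem_filter, mem_Ioc] at hp
    rw [mem_filter, mem_Icc]
    exact ⟨⟨hp.2.one_lt.le, hp.1.2⟩, hp.2⟩
  have h6 : ((Icc 1 N).filter Nat.Prime).card ≤ ((Ioc u N).filter Nat.Prime).card + u := by
    have h7 : (Icc 1 N).filter Nat.Prime ⊆ (Ioc u N).filter Nat.Prime ∪ Icc 1 u := by
      intro p hp
      rw [mem_filter, mem_Icc] at hp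
      rw [mem_union, mem_filter, mem_Ioc, mem_Icc]
      by_cases h : p ≤ u
      · right
        exact ⟨hp.1.1, h⟩
      · left
        exact ⟨⟨by omega, hp.1.2⟩, hp.2⟩
    refine (card_le_card h7).trans ((card_union_le _ _).trans ?_)
    rw [Nat.card_Icc, Nat.add_sub_cancel]
  have h5' : ((((Ioc u N).filter Nat.Prime).card : ℕ) : ℝ) ≤ (((Icc 1 N).filter Nat.Prime).card : ℕ) := by exact_mod_cast h5
  have h6' : ((((Icc 1 N).filter Nat.Prime).card : ℕ) : ℝ) ≤ (((Ioc u N).filter Nat.Prime).card : ℕ) + u := by exact_mod_cast h6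
  have h8 : (u : ℝ) ≤ δ / 2 * (N / L) := by
    have e1 : (u : ℝ) ≤ N / L ^ 2 := by
      rw [le_div_iff₀ (by positivity)]
      exact hu
    refine e1.trans ?_
    have e2 : (N : ℝ) / L ^ 2 = (1 / L) * (N / L) := by field_simp
    rw [e2]
    apply mul_le_mul_of_nonneg_right _ (by positivity)
    rw [div_le_iff₀ hL0]
    rw [div_le_iff₀ hδ] at h2
    linarith
  have h9 := abs_le.1 h4
  rw [abs_le]
  constructor <;> linarith [h9.1, h9.2]

/-- **(1)** Let `r`, functions `φ i` (`i < r`) with the conditions `Rapid`, `T`, `a` and `0 < ε ≤ 1` be fixed. There is `C` such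
that for all large `N`, all ranges `(y i, x i]` (`Range`: the values `exp (φ i (log k))` are between `N ^ (1/3) log ^ C N` and
`N / log ^ C N`), all integers `κ i ≠ 0` with `|κ i| ≤ log ^ T N`, ALL integers `|h i| ≤ N log ^ T N` and EVERY set `P` of at
least `N / log ^ T N` primes `p ≤ N` for which the `p + h i` are positive and prime to `κ i`, the number of the pairs of an
element `p` of `P` and a vector `k` for which all the `p + h i + κ i ⌊exp (φ i (log (k i)))⌋` are primes is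
`|P| ∏ κ i / φ(κ i) (x i - y i) / log N` up to a factor between `1 - ε` and `1 + ε`.

**(2)** Let `φ₁`, `φ₂` satisfy the conditions `Rapid` and let `a` and `0 < ε ≤ 1` be fixed. There is `C` such that for all
large `N`, all ranges `(y₁, x₁]`, `(y₂, x₂]` and ALL `h₁, h₂ ≤ N / log ^ 2 N` the number of the triples of primes `p ≤ N`,
`p - h₁ - ⌊exp (φ₁ (log k₁))⌋`, `p - h₂ - ⌊exp (φ₂ (log k₂))⌋`, `y₁ < k₁ ≤ x₁`, `y₂ < k₂ ≤ x₂`, is
`(x₁ - y₁) (x₂ - y₂) N / log ^ 3 N` up to a factor between `1 - ε` and `1 + ε`.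

**(3)** Let `φ` satisfy the conditions `Rapid`, `η > 0`, `C`. For all large `N` and all `X` with
`N ^ (1/3 + η) ≤ exp (φ (log X))` and `exp (φ (log X)) log ^ C N ≤ N` the interval `(⌊X / 2⌋, X]` is a range (`a = 1`).

**(4)** The functions `φ y = γ y ^ β` with `γ > 0` and `1 < β < 3 / 2` satisfy the conditions `Rapid`. -/
theorem result :
    (∀ (r : ℕ) (φ : Fin r → ℝ → ℝ), (∀ i, Rapid (φ i)) → ∀ (T a : ℕ) (ε : ℝ), 0 < ε → ε ≤ 1 →
      ∃ C N₀ : ℕ, ∀ N : ℕ, N₀ ≤ N → ∀ x y : Fin r → ℕ, (∀ i, Range (φ i) a C N (x i) (y i)) →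
      ∀ κ : Fin r → ℤ, (∀ i, κ i ≠ 0 ∧ ((κ i).natAbs : ℝ) ≤ Real.log N ^ T) →
      ∀ h : Fin r → ℤ, (∀ i, |(h i : ℝ)| ≤ N * Real.log N ^ T) →
      ∀ P : Finset ℕ, (∀ p ∈ P, p.Prime ∧ p ≤ N ∧ ∀ i, 0 < (p : ℤ) + h i ∧ IsCoprime ((p : ℤ) + h i) (κ i)) →
        (N : ℝ) ≤ P.card * Real.log N ^ T →
        |(tuples φ x y κ h P : ℝ) - P.card * expected N x y κ| ≤ ε * (P.card * expected N x y κ)) ∧
    (∀ φ₁ φ₂ : ℝ → ℝ, Rapid φ₁ → Rapid φ₂ → ∀ (a : ℕ) (ε : ℝ), 0 < ε → ε ≤ 1 →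
      ∃ C N₀ : ℕ, ∀ N : ℕ, N₀ ≤ N → ∀ x₁ y₁ x₂ y₂ : ℕ, Range φ₁ a C N x₁ y₁ → Range φ₂ a C N x₂ y₂ →
      ∀ h₁ h₂ : ℕ, (h₁ : ℝ) * Real.log N ^ 2 ≤ N → (h₂ : ℝ) * Real.log N ^ 2 ≤ N →
        |(triples φ₁ φ₂ N x₁ y₁ x₂ y₂ h₁ h₂ : ℝ) - ((x₁ : ℝ) - y₁) * ((x₂ : ℝ) - y₂) * (N / Real.log N ^ 3)| ≤
          ε * (((x₁ : ℝ) - y₁) * ((x₂ : ℝ) - y₂) * (N / Real.log N ^ 3))) ∧
    (∀ φ : ℝ → ℝ, Rapid φ → ∀ η : ℝ, 0 < η → ∀ C : ℕ, ∃ N₀ : ℕ, ∀ N : ℕ, N₀ ≤ N → ∀ X : ℕ,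
      (N : ℝ) ^ (1 / 3 + η) ≤ Real.exp (φ (Real.log X)) → Real.exp (φ (Real.log X)) * Real.log N ^ C ≤ N →
      Range φ 1 C N X (X / 2)) ∧
    (∀ γ β : ℝ, 0 < γ → 1 < β → β < 3 / 2 → Rapid (fun y => γ * y ^ β)) := by
  have hmain : ∀ (r : ℕ) (φ : Fin r → ℝ → ℝ), (∀ i, Rapid (φ i)) → ∀ (T a : ℕ) (ε : ℝ), 0 < ε → ε ≤ 1 →
      ∃ C N₀ : ℕ, ∀ N : ℕ, N₀ ≤ N → ∀ x y : Fin r → ℕ, (∀ i, Range (φ i) a C N (x i) (y i)) →
      ∀ κ : Fin r → ℤ, (∀ i, κ i ≠ 0 ∧ ((κ i).natAbs : ℝ) ≤ Real.log N ^ T) →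
      ∀ h : Fin r → ℤ, (∀ i, |(h i : ℝ)| ≤ N * Real.log N ^ T) →
      ∀ P : Finset ℕ, (∀ p ∈ P, p.Prime ∧ p ≤ N ∧ ∀ i, 0 < (p : ℤ) + h i ∧ IsCoprime ((p : ℤ) + h i) (κ i)) →
        (N : ℝ) ≤ P.card * Real.log N ^ T →
        |(tuples φ x y κ h P : ℝ) - P.card * expected N x y κ| ≤ ε * (P.card * expected N x y κ) := by
    intro r φ hφ T a ε hε hε1
    have hφ' : ∀ i, Pool.Agent.Run7.h673.SP.Rapid (φ i) := hφ
    obtain ⟨C, W, N₀, h0⟩ := Pool.Agent.Run7.h673.SP.win_tuples r φ hφ' T a ε hε hε1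
    obtain ⟨N₃, h3⟩ := Filter.eventually_atTop.1 (Pool.Agent.N384.MQ.ev_log_ge 1)
    refine ⟨C + W, N₀ + N₃, fun N hN x y hr κ hκ h hh P hP hPN => ?_⟩
    have hL := h3 N (by omega)
    have hr' : ∀ i, Pool.Agent.Run7.h673.SP.Rgw (φ i) a C W N (x i) (y i) := by
      intro i
      obtain ⟨r1, r2, r3, r4⟩ := hr i
      refine Pool.Agent.Run7.h673.SP.Rgw.mono hL (by omega : C ≤ C + W) (by omega : W ≤ C + W) ⟨r1, ?_, r3, r4⟩
      rw [Nat.cast_sub r1.le]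
      exact r2
    have h4 := h0 N (by omega) x y hr' κ hκ h hh P (fun n hn => ⟨(hP n hn).1.one_lt.le, (hP n hn).2⟩) hPN
    rw [← tuples_eq] at h4
    have h5 : (∏ i, ((κ i).natAbs / (Nat.totient (κ i).natAbs : ℝ) * (((x i - y i : ℕ) : ℝ) / Real.log N))) =
        expected N x y κ := by
      unfold expected
      refine prod_congr rfl fun i _ => ?_
      rw [Nat.cast_sub (hr i).1.le]
    rw [h5] at h4
    exact h4
  refine ⟨hmain, fun φ₁ φ₂ hφ₁ hφ₂ a ε hε hε1 => ?_, fun φ hφ η hη C => ?_,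
    fun γ β h1 h2 h3 => Pool.Agent.Run7.h673.SP.rapid_pow γ β h1 h2 h3⟩
  · obtain ⟨C, N₀, h0⟩ := hmain 2 ![φ₁, φ₂] (fun i => by fin_cases i <;> assumption) 2 a (ε / 4) (by positivity) (by linarith)
    obtain ⟨N₁, h1⟩ := few (ε / 4) (by positivity)
    obtain ⟨N₃, h3⟩ := Filter.eventually_atTop.1 (Pool.Agent.N384.MQ.ev_log_ge 2)
    refine ⟨C, N₀ + N₁ + N₃ + 3, fun N hN x₁ y₁ x₂ y₂ hr₁ hr₂ h₁ h₂ hh₁ hh₂ => ?_⟩
    have hL := h3 N (by omega)
    have hN0 : (0 : ℝ) < N := by exact_mod_cast (by omega : 0 < N)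
    obtain ⟨u, hu⟩ : ∃ u, u = max h₁ h₂ := ⟨_, rfl⟩
    have huN : (u : ℝ) * Real.log N ^ 2 ≤ N := by
      rw [hu]
      rcases le_total h₁ h₂ with h | h
      · rw [max_eq_right h]; exact hh₂
      · rw [max_eq_left h]; exact hh₁
    have h5 := h1 N (by omega) u huN
    obtain ⟨P, hP⟩ : ∃ P : Finset ℕ, P = (Ioc u N).filter Nat.Prime := ⟨_, rfl⟩
    rw [← hP] at h5
    obtain ⟨L, hLd⟩ : ∃ L, L = Real.log (N : ℝ) := ⟨_, rfl⟩
    have hL0 : 0 < Real.log N := by linarith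
    have hNL : 0 < (N : ℝ) / Real.log N := by positivity
    have h5' := abs_le.1 h5
    have hPN : (N : ℝ) ≤ P.card * Real.log N ^ 2 := by
      have e1 : (N : ℝ) / Real.log N / 2 ≤ P.card := by
        have : ε / 4 * (N / Real.log N) ≤ 1 / 4 * (N / Real.log N) := mul_le_mul_of_nonneg_right (by linarith) hNL.le
        linarith [h5'.1]
      calc (N : ℝ) = (N / Real.log N / 2) * (2 * Real.log N) := by field_simp
        _ ≤ P.card * (Real.log N * Real.log N) := by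
            apply mul_le_mul e1 _ (by positivity) (Nat.cast_nonneg _)
            exact mul_le_mul_of_nonneg_right hL hL0.le
        _ = P.card * Real.log N ^ 2 := by ring
    have hub : ∀ hh : ℕ, (hh : ℝ) * Real.log N ^ 2 ≤ N → |((-(hh : ℤ) : ℤ) : ℝ)| ≤ N * Real.log N ^ 2 := by
      intro hh hhN
      push_cast
      rw [abs_neg, Nat.abs_cast]
      have e1 : (1 : ℝ) ≤ Real.log N ^ 2 := one_le_pow₀ (by linarith)
      have e2 : (hh : ℝ) ≤ hh * Real.log N ^ 2 := le_mul_of_one_le_right (Nat.cast_nonneg _) e1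
      have e3 : (N : ℝ) ≤ N * Real.log N ^ 2 := le_mul_of_one_le_right hN0.le e1
      linarith
    have h6 := h0 N (by omega) ![x₁, x₂] ![y₁, y₂] (fun i => by fin_cases i <;> assumption) ![-1, -1]
      (fun i => by
        have e1 : ((Int.natAbs (-1) : ℕ) : ℝ) ≤ Real.log N ^ 2 := by
          rw [show Int.natAbs (-1) = 1 from rfl, Nat.cast_one]
          exact one_le_pow₀ (by linarith)
        fin_cases i
        · exact ⟨by simp, e1⟩
        · exact ⟨by simp, e1⟩)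
      ![-(h₁ : ℤ), -(h₂ : ℤ)] (fun i => by
        fin_cases i
        · exact hub h₁ hh₁
        · exact hub h₂ hh₂) P
      (fun p hp => by
        rw [hP, mem_filter, mem_Ioc, hu, max_lt_iff] at hp
        refine ⟨hp.2, hp.1.2, fun i => ?_⟩
        fin_cases i
        · refine ⟨?_, ?_⟩
          · show (0 : ℤ) < (p : ℤ) + -(h₁ : ℤ)
            omega
          · show IsCoprime ((p : ℤ) + -(h₁ : ℤ)) (-1)
            exact isCoprime_one_right.neg_right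
        · refine ⟨?_, ?_⟩
          · show (0 : ℤ) < (p : ℤ) + -(h₂ : ℤ)
            omega
          · show IsCoprime ((p : ℤ) + -(h₂ : ℤ)) (-1)
            exact isCoprime_one_right.neg_right) hPN
    have h7 : expected N ![x₁, x₂] ![y₁, y₂] ![-1, -1] = ((x₁ : ℝ) - y₁) * ((x₂ : ℝ) - y₂) / Real.log N ^ 2 := by
      unfold expected
      rw [Fin.prod_univ_two]
      simp
      ring
    have h8 : (tuples ![φ₁, φ₂] ![x₁, x₂] ![y₁, y₂] ![-1, -1] ![-(h₁ : ℤ), -(h₂ : ℤ)] P : ℝ) =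
        (triples φ₁ φ₂ N x₁ y₁ x₂ y₂ h₁ h₂ : ℝ) := by
      rw [tuples_eq, triples_eq φ₁ φ₂ N x₁ y₁ x₂ y₂ h₁ h₂ P (by rw [hP, hu])]
      refine sum_congr rfl fun p hp => ?_
      rw [hP, mem_filter, mem_Ioc, hu, max_lt_iff] at hp
      rw [Fin.prod_univ_two]
      simp only [Matrix.cons_val_zero, Matrix.cons_val_one]
      rw [npr_neg φ₁ x₁ y₁ h₁ p hp.1.1.1, npr_neg φ₂ x₂ y₂ h₂ p hp.1.1.2]
    rw [h7, h8] at h6
    obtain ⟨M, hM⟩ : ∃ M : ℝ, M = ((x₁ : ℝ) - y₁) * ((x₂ : ℝ) - y₂) / Real.log N ^ 2 := ⟨_, rfl⟩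
    have hM0 : 0 ≤ M := by
      rw [hM]
      have e1 : (y₁ : ℝ) < x₁ := by exact_mod_cast hr₁.1
      have e2 : (y₂ : ℝ) < x₂ := by exact_mod_cast hr₂.1
      exact div_nonneg (mul_nonneg (by linarith) (by linarith)) (by positivity)
    have h9 : ((x₁ : ℝ) - y₁) * ((x₂ : ℝ) - y₂) * (N / Real.log N ^ 3) = (N / Real.log N) * M := by
      rw [hM]
      field_simp
    rw [← hM] at h6
    rw [h9]
    have h10 := abs_le.1 h6
    have h11 : (P.card : ℝ) * M ≤ ((1 + ε / 4) * (N / Real.log N)) * M := mul_le_mul_of_nonneg_right (by linarith) hM0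
    have h12 : ((1 - ε / 4) * (N / Real.log N)) * M ≤ (P.card : ℝ) * M := mul_le_mul_of_nonneg_right (by linarith) hM0
    have h13 : 0 ≤ (N / Real.log N) * M := by positivity
    have h14 : ε * ((P.card : ℝ) * M) ≤ ε * (((1 + ε / 4) * (N / Real.log N)) * M) := mul_le_mul_of_nonneg_left h11 hε.le
    have h15 : ε * ε * ((N / Real.log N) * M) ≤ ε * 1 * ((N / Real.log N) * M) := by
      apply mul_le_mul_of_nonneg_right _ h13
      exact mul_le_mul_of_nonneg_left hε1 hε.le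
    rw [abs_le]
    constructor
    · nlinarith [h10.1]
    · nlinarith [h10.2]
  · have hφ' : Pool.Agent.Run7.h673.SP.Rapid φ := hφ
    obtain ⟨δ, C', L₀, hf⟩ := hφ'.fast
    obtain ⟨N₀, h0⟩ := hf.half η hη C 1
    obtain ⟨N₃, h3⟩ := Filter.eventually_atTop.1 (Pool.Agent.N384.MQ.ev_log_ge 1)
    refine ⟨N₀ + N₃, fun N hN X h1 h2 => ?_⟩
    have hL := h3 N (by omega)
    obtain ⟨e1, e2, e3, e4⟩ := h0 N (by omega) X h1 (by
      rw [Nat.cast_one, one_mul]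
      refine le_trans ?_ h2
      exact le_mul_of_one_le_right (Real.exp_pos _).le (one_le_pow₀ hL))
    refine ⟨e1, ?_, e3, h2⟩
    rw [Nat.cast_sub e1.le] at e2
    exact e2

end Pool.Agent.Results.MP_1039f5_nt.SuperpolynomialTriples
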