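import Pool.Agent.Run7.h90.AU.ShiftB

set_option autoImplicit false

/-!
# Uniform prime triples at the members of thin families of residues modulo a prime

Let `p` be a large prime and let `(v_i)`, `i ∈ s`, be a family of residues modulo `p` whose exponential sums
`∑ e(ξ v_i / p)`, `ξ ≠ 0`, are at most `p ^ (-ε) |s|`; the family may be very thin. Examples: the values of a sparse
polynomial of arbitrary degree on a subgroup of order `p ^ η`, the values `c_1 g_1 ^ n + ... + c_k g_k ^ n`, `n < N`,
`N ≥ p ^ η`. The theorem is about the integers `n` congruent to a member of the family modulo `p` in an interval of length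
`L ≥ p ^ (1 - δ)`. Uniformly in all
integers `0 < d' < d ≤ p ^ A - 1` such that `{0, d', d}` is admissible, the triples `m - d, m - d', m` (`m = n + d`) of
numbers without prime factors up to `z` have the frequency predicted by Hardy and Littlewood.

Proof: bound of Bourgain, Glibichuk and Konyagin in the form for recurrences and monomials (`Agent/Run7/h823/BK9`);
equidistribution in the residue classes modulo all integers up to `p ^ δ` and the fundamental lemma of the sieve
(`Agent/Run7/h90/AU`).
-/

namespace Pool.Agent.Results.MP_1039f5_nt.TriplesInSparseFamilies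

open Finset Filter Topology
open Pool.Agent.Run7.h90.AU (UniformFormula UniformOrders SparseSmall RecurrencesSmall)

/-- The number of the residue classes modulo `q` that contain one of the numbers `0, d', d`; here `x = (d', d)`. -/
def nu (x : ℕ × ℕ) (q : ℕ) : ℕ := (({0, x.1, x.2} : Finset ℕ).image fun e => e % q).card

/-- The partial products, over the primes `q ≤ z`, of the singular series of `{0, d', d}`. -/
noncomputable def partialSingularSeries (x : ℕ × ℕ) (z : ℕ) : ℝ :=
  ∏ q ∈ (range (z + 1)).filter Nat.Prime, ((1 - (nu x q : ℝ) / q) / (1 - 1 / (q : ℝ)) ^ 3)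

/-- `0 < d' < d` and the singular series does not vanish. -/
def Good (x : ℕ × ℕ) : Prop := 0 < x.1 ∧ x.1 < x.2 ∧ ∀ q : ℕ, q.Prime → nu x q < q

/-- One more than the larger shift. -/
def size (x : ℕ × ℕ) : ℝ := (x.2 : ℝ) + 1

/-- The numbers `m = n + d`, `m - d'` and `m - d = n` have the property `P`. -/
def Triple (x : ℕ × ℕ) (P : ℕ → Prop) (n : ℕ) : Prop := P (n + x.2) ∧ P (n + x.2 - x.1) ∧ P n

/-- the shifts counted from the smallest member -/
def shifts (x : ℕ × ℕ) : Finset ℕ := {0, x.2 - x.1, x.2}

theorem shifts_eq (x : ℕ × ℕ) (h : x.1 < x.2) : shifts x = ({0, x.1, x.2} : Finset ℕ).image (fun e => x.2 - e) := by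
  unfold shifts
  rw [image_insert, image_insert, image_singleton, Nat.sub_self, Nat.sub_zero]
  ext y
  simp only [mem_insert, mem_singleton]
  tauto

theorem nu_eq (x : ℕ × ℕ) (h : x.1 < x.2) (q : ℕ) (hq : q.Prime) :
    Pool.Agent.Run7.h90.AU.classes (shifts x) q = nu x q := by
  rw [shifts_eq x h, Pool.Agent.Run7.h90.AU.classes_reflect _ x.2 (by simp [h.le]) q hq]
  rfl

theorem ok (x : ℕ × ℕ) (h : Good x) : Pool.Agent.Run7.h90.AU.Admissible 3 (shifts x) := by
  obtain ⟨h1, h2, h3⟩ := h
  refine ⟨?_, fun q hq => by rw [nu_eq x h2 q hq]; exact h3 q hq⟩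
  unfold shifts
  rw [card_insert_of_notMem, card_insert_of_notMem, card_singleton]
  · rw [mem_singleton]; omega
  · simp only [mem_insert, mem_singleton]; omega

theorem size_le (x : ℕ × ℕ) (_ : Good x) : Pool.Agent.Run7.h90.AU.height (shifts x) ≤ size x := by
  unfold Pool.Agent.Run7.h90.AU.height size shifts
  have h1 : ({0, x.2 - x.1, x.2} : Finset ℕ).sup id ≤ x.2 := by
    apply Finset.sup_le
    intro e he
    simp only [mem_insert, mem_singleton] at he
    simp only [id]
    omega
  have h2 : ((({0, x.2 - x.1, x.2} : Finset ℕ).sup id : ℕ) : ℝ) ≤ x.2 := by exact_mod_cast h1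
  linarith

theorem pat (x : ℕ × ℕ) (h : Good x) (P : ℕ → Prop) (n : ℕ) (_ : 1 ≤ n) :
    Pool.Agent.Run7.h90.AU.Shifts (shifts x) P n ↔ Triple x P n := by
  unfold Pool.Agent.Run7.h90.AU.Shifts Triple shifts
  have key : n + x.2 - x.1 = n + (x.2 - x.1) := Nat.add_sub_assoc h.2.1.le n
  rw [key]
  simp only [mem_insert, mem_singleton, forall_eq_or_imp, forall_eq, add_zero]
  tauto

theorem con (x : ℕ × ℕ) (h : Good x) :
    Pool.Agent.Run7.h90.AU.singularSeries 3 (shifts x) =ᶠ[atTop] partialSingularSeries x := by
  refine Eventually.of_forall fun z => ?_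
  unfold Pool.Agent.Run7.h90.AU.singularSeries partialSingularSeries
  refine prod_congr rfl fun q hq => ?_
  rw [mem_filter] at hq
  rw [nu_eq x h.2.1 q hq.2]

theorem result : UniformFormula 3 Triple partialSingularSeries size Good ∧
    UniformOrders 3 Triple partialSingularSeries size Good ∧ SparseSmall ∧ RecurrencesSmall :=
  ⟨(Pool.Agent.Run7.h90.AU.shiftPat 3).formula.comap shifts ok size_le pat con,
    (Pool.Agent.Run7.h90.AU.shiftPat 3).orders.comap shifts ok size_le pat con,
    Pool.Agent.Run7.h90.AU.sparse_small, Pool.Agent.Run7.h90.AU.rec_small⟩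

end Pool.Agent.Results.MP_1039f5_nt.TriplesInSparseFamilies
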